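import Mathlib
import Pool.Agent.N390.Fourteen
import Pool.Agent.N390.Six
import Pool.Agent.N390.CircUpper
import Pool.Agent.N390.Ints

/-!
# The minimum number of circles determined by `n` points

The exact value of `m(n)` for every `n` with `4 ≤ n ≤ 8` and for every `n ≥ 14`.
-/

set_option autoImplicit false

namespace Pool.Agent.Results.MP_1f1ca1_co.MinimumCircles

/-- the circles determined by `P`: circles with at least three points of `P` -/
def determinedCircles (P : Set (EuclideanSpace ℝ (Fin 2))) : Set (Set (EuclideanSpace ℝ (Fin 2))) :=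
  {C | (∃ (c : EuclideanSpace ℝ (Fin 2)) (r : ℝ), 0 < r ∧ C = Metric.sphere c r) ∧
    3 ≤ (P ∩ C).ncard}

/-- `P` is contained neither in a line nor in a circle -/
def Admissible (P : Set (EuclideanSpace ℝ (Fin 2))) : Prop :=
  ¬ Collinear ℝ P ∧
    ¬ ∃ (c : EuclideanSpace ℝ (Fin 2)) (r : ℝ), 0 < r ∧ P ⊆ Metric.sphere c r

/-- the numbers of circles determined by the admissible sets of exactly `n` points -/
def circleNumbers (n : ℕ) : Set ℕ :=
  {k | ∃ P : Set (EuclideanSpace ℝ (Fin 2)), P.Finite ∧ P.ncard = n ∧ Admissible P ∧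
    (determinedCircles P).ncard = k}

open Pool.Agent.Helper543.PlaneC Pool.Agent.Helper543.Blocks Pool.Agent.Helper543.Small
open Pool.Agent.Helper543.Melchior (lines)
open Pool.Agent.Helper543.Bounds Pool.Agent.Helper543.Count
open Pool.Agent.N390

private lemma id1 (N : ℕ) : N.choose 2 - N / 2 + 1 = (N + 1 - 2) ^ 2 / 2 + 1 := by
  rw [Nat.choose_two_right]
  rcases Nat.even_or_odd' N with ⟨k, rfl | rfl⟩
  · rcases Nat.eq_zero_or_pos k with rfl | hk
    · decide
    obtain ⟨j, rfl⟩ : ∃ j, k = j + 1 := ⟨k - 1, by omega⟩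
    have e1 : 2 * (j + 1) * (2 * (j + 1) - 1) / 2 = (j + 1) * (2 * j + 1) := by
      have : 2 * (j + 1) - 1 = 2 * j + 1 := by omega
      rw [this, mul_assoc, Nat.mul_div_cancel_left _ (by norm_num)]
    have e2 : (2 * (j + 1) + 1 - 2) ^ 2 / 2 = 2 * j * j + 2 * j := by
      have h : (2 * (j + 1) + 1 - 2) ^ 2 = 2 * (2 * j * j + 2 * j) + 1 := by
        have : 2 * (j + 1) + 1 - 2 = 2 * j + 1 := by omega
        rw [this]; ring
      omega
    have e3 : 2 * (j + 1) / 2 = j + 1 := by omega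
    have e4 : (j + 1) * (2 * j + 1) = 2 * j * j + 2 * j + (j + 1) := by ring
    rw [e1, e2, e3, e4]
    omega
  · have e1 : (2 * k + 1) * (2 * k + 1 - 1) / 2 = 2 * k * k + k := by
      have : (2 * k + 1) * (2 * k + 1 - 1) = 2 * (2 * k * k + k) := by
        have : 2 * k + 1 - 1 = 2 * k := by omega
        rw [this]; ring
      rw [this, Nat.mul_div_cancel_left _ (by norm_num)]
    have e2 : (2 * k + 1 + 1 - 2) ^ 2 / 2 = 2 * k * k := by
      have h : (2 * k + 1 + 1 - 2) ^ 2 = 2 * (2 * k * k) := by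
        have : 2 * k + 1 + 1 - 2 = 2 * k := by omega
        rw [this]; ring
      omega
    have e3 : (2 * k + 1) / 2 = k := by omega
    rw [e1, e2, e3]
    omega

private lemma id2 (n : ℕ) (hn : 4 ≤ n) :
    (n - 1).choose 2 + 1 - (n - 1) / 2 = (n - 2) ^ 2 / 2 + 1 := by
  have h := id1 (n - 1)
  have e : n - 1 + 1 - 2 = n - 2 := by omega
  rw [e] at h
  rw [← h]
  have h2 : (n - 1) / 2 ≤ (n - 1).choose 2 := by
    rw [Nat.choose_two_right]
    apply Nat.div_le_div_right
    calc n - 1 = (n - 1) * 1 := by ring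
      _ ≤ _ := Nat.mul_le_mul_left _ (by omega)
  omega

/-- transfer of a lower bound -/
private lemma transfer (n k : ℕ) (h4 : 4 ≤ n)
    (h : ∀ (Q : Finset Pool.Agent.Helper543.Melchior.Pt) (_ : Q.card = n) (h3 : 3 ≤ Q.card)
      (hP : ∀ B ∈ blocks Q, ∃ x ∈ Q, x ∉ B), (k : ℤ) ≤ cc (cfg Q h3 hP)) :
    ∀ j ∈ circleNumbers n, k ≤ j := by
  classical
  rintro j ⟨P, hfin, hcard, hadm, rfl⟩
  obtain ⟨P, rfl⟩ := hfin.exists_finset_coe
  rw [Set.ncard_coe_finset] at hcard
  have hP : Pool.Agent.Helper543.PlaneC.Admissible (P : Set Plane) := hadm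
  rw [admissible_iff P (by omega)] at hP
  have hc : (P.image phi).card = P.card := Finset.card_image_of_injective _ phi_inj
  have := h (P.image phi) (by omega) (by omega) hP
  have e : (determinedCircles (P : Set (EuclideanSpace ℝ (Fin 2)))).ncard =
      (blocks (P.image phi) \ lines (P.image phi)).card := ncard_circles P
  rw [e]
  have e2 : cc (cfg (P.image phi) (by omega) hP) =
      (((blocks (P.image phi) \ lines (P.image phi)).card : ℕ) : ℤ) := by
    unfold cc Cfg.circ
    simp only [cfg]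
  rw [e2] at this
  exact_mod_cast this

private lemma attained (n k : ℕ) (P : Finset Plane) (hc : P.card = n)
    (ha : Pool.Agent.Helper543.PlaneC.Admissible (P : Set Plane))
    (hk : (Circles (P : Set Plane)).ncard ≤ k) (hlow : ∀ j ∈ circleNumbers n, k ≤ j) :
    IsLeast (circleNumbers n) k := by
  have hm : (Circles (P : Set Plane)).ncard ∈ circleNumbers n :=
    ⟨(P : Set Plane), P.finite_toSet, by rw [Set.ncard_coe_finset, hc], ha, rfl⟩
  have h := hlow _ hm
  have e : (Circles (P : Set Plane)).ncard = k := le_antisymm hk h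
  rw [e] at hm
  exact ⟨hm, hlow⟩

private lemma notMem {Q : Finset Pool.Agent.Helper543.Melchior.Pt} (h3 : 3 ≤ Q.card)
    (hP : ∀ B ∈ blocks Q, ∃ x ∈ Q, x ∉ B) : (cfg Q h3 hP).P ∉ (cfg Q h3 hP).B := by
  intro hmem
  obtain ⟨x, hx, hx'⟩ := hP _ hmem
  exact hx' hx

private lemma upperEX (n k : ℕ) (hn : 4 ≤ n) (hk : (n - 2) ^ 2 / 2 + 1 = k)
    (hlow : ∀ j ∈ circleNumbers n, k ≤ j) : IsLeast (circleNumbers n) k := by
  have h1 := CircUpper.upper (n - 1)
  rw [id1] at h1
  have e : n - 1 + 1 - 2 = n - 2 := by omega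
  rw [e, hk] at h1
  exact attained n k (CircUpper.EX (n - 1)) (by rw [CircUpper.card_EX]; omega)
    (CircUpper.adm_EX (n - 1) (by omega)) h1 hlow

/-- For every `n ≥ 4` outside `9, …, 13`, the least number of circles determined by an admissible
set of `n` points is `8`, `11`, `17` for `n = 6, 7, 8` and `C(n-1, 2) + 1 - ⌊(n-1)/2⌋` otherwise. -/
theorem result (n : ℕ) (hn : 4 ≤ n) (h : n ≤ 8 ∨ 14 ≤ n) :
    IsLeast (circleNumbers n)
      (if n = 6 then 8 else if n = 7 then 11 else if n = 8 then 17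
        else (n - 1).choose 2 + 1 - (n - 1) / 2) := by
  by_cases h6 : n = 6
  · subst h6
    rw [if_pos rfl]
    refine attained 6 8 (Ints.EZ Ints.p6) (Ints.card_EZ _ Ints.i6)
      (Ints.adm_EZ _ (by norm_num) Ints.i6 Ints.a6) (by rw [← Ints.c6]; exact Ints.ncard_EZ _) ?_
    exact transfer 6 8 (by norm_num) (fun Q hQ h3 hP => Six.lower6 hQ h3 hP)
  by_cases h7 : n = 7
  · subst h7
    rw [if_neg (by norm_num), if_pos rfl]
    refine attained 7 11 (Ints.EZ Ints.p7) (Ints.card_EZ _ Ints.i7)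
      (Ints.adm_EZ _ (by norm_num) Ints.i7 Ints.a7) (by rw [← Ints.c7]; exact Ints.ncard_EZ _) ?_
    exact transfer 7 11 (by norm_num) (fun Q hQ h3 hP => Radical.lower7 hQ h3 hP)
  by_cases h8 : n = 8
  · subst h8
    rw [if_neg (by norm_num), if_neg (by norm_num), if_pos rfl]
    refine attained 8 17 (Ints.EZ Ints.p8) (Ints.card_EZ _ Ints.i8)
      (Ints.adm_EZ _ (by norm_num) Ints.i8 Ints.a8) (by rw [← Ints.c8]; exact Ints.ncard_EZ _) ?_
    exact transfer 8 17 (by norm_num) (fun Q hQ h3 hP => Eight.low8 _ hQ (notMem h3 hP))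
  rw [if_neg h6, if_neg h7, if_neg h8, id2 n hn]
  have h' : n = 4 ∨ n = 5 ∨ n = 14 ∨ 15 ≤ n := by omega
  apply upperEX n _ hn rfl
  rcases h' with rfl | rfl | rfl | h15
  · exact transfer 4 3 (by norm_num) (fun Q hQ h3 hP => Low.low4 _ hQ (notMem h3 hP))
  · exact transfer 5 5 (by norm_num) (fun Q hQ h3 hP => Low.low5 _ hQ (notMem h3 hP))
  · refine transfer 14 73 (by norm_num) (fun Q hQ h3 hP => ?_)
    have := Fourteen.lower14 hQ h3 hP
    have e : T 14 = 72 := by decide
    rw [e] at this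
    exact this
  · rintro j ⟨P, hfin, hcard, hadm, rfl⟩
    obtain ⟨P, rfl⟩ := hfin.exists_finset_coe
    rw [Set.ncard_coe_finset] at hcard
    have := lower P (by omega) hadm
    rw [hcard] at this
    exact this

end Pool.Agent.Results.MP_1f1ca1_co.MinimumCircles
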